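import Pool.Agent.Lib.MP_15f43f_co.Oe.Main

set_option autoImplicit false

open Pool.Agent.Lib.MP_15f43f_co Pool.Agent.Lib.MP_15f43f_co.Od in
theorem Pool.Agent.Results.MP_15f43f_co.RookOdds.result (w b : Bool) (c : Color)
    (σ : List Pos → Pos) (hσ : IsStrategy c σ) :
    ∃ p, PlayFrom (start w b) c σ p ∧ ∀ n, (p n).turn = c.opp → Checkmated (p n) →
      ∃ s, (start w b).board s = some (c, Kind.rook) ∧ ∃ m ≤ n, (p m).board s = none := by
  have e : c = c.opp.opp := by cases c <;> rfl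
  obtain ⟨p, p1, p2⟩ := Oe.first_rook w b c.opp σ (e ▸ hσ)
  rw [← e] at p1 p2
  refine ⟨p, p1, fun n x y => ?_⟩
  obtain ⟨s, s1, m, m1, m2⟩ := p2 n x y
  exact ⟨s, s1, m + 1, m1, m2⟩
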